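import Pool.Agent.H629.GC.Stm

/-!
# Project GC (helper629), task A2: powers of sums with exponential weights
-/

set_option autoImplicit false

open MeasureTheory ProbabilityTheory Set Filter
open scoped ENNReal Topology

namespace Pool.Agent.H671.GC.A2

open Pool.Agent.H629.GC

theorem ex_add (a b : ℝ) : ex (a + b) = ex a * ex b := by
  unfold ex
  rw [Real.exp_add, ENNReal.ofReal_mul (Real.exp_pos a).le]

theorem ex_zero : ex 0 = 1 := by
  unfold ex
  rw [Real.exp_zero, ENNReal.ofReal_one]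

theorem ex_rpow (a r : ℝ) : ex a ^ r = ex (a * r) := by
  unfold ex
  rw [ENNReal.ofReal_rpow_of_pos (Real.exp_pos a), ← Real.exp_mul]

/-- the partial sums of the geometric series -/
theorem geo {τ : ℝ} (hτ : 0 < τ) (N : ℕ) :
    ∑ j ∈ Finset.range N, ex (-(τ * j)) ≤ ENNReal.ofReal (1 / (1 - Real.exp (-τ))) := by
  have hq1 : Real.exp (-τ) < 1 := Real.exp_lt_one_iff.2 (by linarith)
  have hq0 : 0 ≤ Real.exp (-τ) := (Real.exp_pos _).le
  have h1 : ∀ j ∈ Finset.range N, ex (-(τ * j)) = ENNReal.ofReal (Real.exp (-τ) ^ j) := by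
    intro j _
    unfold ex
    rw [← Real.exp_nat_mul]
    congr 2
    ring
  rw [Finset.sum_congr rfl h1, ← ENNReal.ofReal_sum_of_nonneg (fun j _ => by positivity)]
  apply ENNReal.ofReal_le_ofReal
  rw [one_div, ← tsum_geometric_of_lt_one hq0 hq1]
  exact (summable_geometric_of_lt_one hq0 hq1).sum_le_tsum _ (fun j _ => by positivity)

/-- **A2** -/
theorem t_A2 : S_A2 := by
  intro r κ hr hκ
  set τ : ℝ := κ / r with hτ
  have hτ0 : 0 < τ := div_pos hκ hr
  have hq1 : Real.exp (-τ) < 1 := Real.exp_lt_one_iff.2 (by linarith)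
  have hG0 : 0 < 1 / (1 - Real.exp (-τ)) := by
    apply one_div_pos.2
    linarith
  refine ⟨Real.log (1 / (1 - Real.exp (-τ))) * r, ?_⟩
  intro N z
  set T : ℝ≥0∞ := ∑ j ∈ Finset.range N, ex (κ * j) * z j ^ r with hT
  have h1 : ∀ j ∈ Finset.range N, z j ≤ ex (-(τ * j)) * T ^ (1 / r) := by
    intro j hj
    have h2 : ex (κ * j) * z j ^ r ≤ T :=
      Finset.single_le_sum (f := fun j : ℕ => ex (κ * j) * z j ^ r) (fun _ _ => zero_le) hj
    have h3 : z j ^ r ≤ ex (-(κ * j)) * T := by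
      calc z j ^ r = ex (-(κ * j)) * (ex (κ * j) * z j ^ r) := by
            rw [← mul_assoc, ← ex_add, neg_add_cancel, ex_zero, one_mul]
        _ ≤ ex (-(κ * j)) * T := mul_le_mul_right h2 _
    have h4 : (z j ^ r) ^ (1 / r) = z j := by
      rw [← ENNReal.rpow_mul, mul_one_div_cancel hr.ne', ENNReal.rpow_one]
    calc z j = (z j ^ r) ^ (1 / r) := h4.symm
      _ ≤ (ex (-(κ * j)) * T) ^ (1 / r) := ENNReal.rpow_le_rpow h3 (by positivity)
      _ = ex (-(τ * j)) * T ^ (1 / r) := by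
          rw [ENNReal.mul_rpow_of_nonneg _ _ (by positivity), ex_rpow]
          congr 2
          rw [hτ]
          ring
  have h5 : ∑ j ∈ Finset.range N, z j ≤
      ENNReal.ofReal (1 / (1 - Real.exp (-τ))) * T ^ (1 / r) := by
    refine (Finset.sum_le_sum h1).trans ?_
    rw [← Finset.sum_mul]
    exact mul_le_mul_left (geo hτ0 N) _
  calc (∑ j ∈ Finset.range N, z j) ^ r
      ≤ (ENNReal.ofReal (1 / (1 - Real.exp (-τ))) * T ^ (1 / r)) ^ r :=
        ENNReal.rpow_le_rpow h5 hr.le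
    _ = ex (Real.log (1 / (1 - Real.exp (-τ))) * r) * T := by
        rw [ENNReal.mul_rpow_of_nonneg _ _ hr.le, ← ENNReal.rpow_mul, one_div_mul_cancel hr.ne',
          ENNReal.rpow_one, ← ex_rpow]
        congr 2
        unfold ex
        rw [Real.exp_log hG0]

end Pool.Agent.H671.GC.A2
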